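import Pool.Agent.H98.CE.Targets
import Pool.Agent.H95.Cop.Renewal

/-! AAB: all stretches between two windows. -/

set_option autoImplicit false

open MeasureTheory ProbabilityTheory Filter Topology
open Pool.Agent.H95 Pool.Agent.H95.Cop
open Pool.Agent.H98.CE

namespace Pool.Agent.H53.CEL

theorem pf_AAB (hPCB : T_PCB) (hPXS : T_PXS) (hSTB : T_STB) : T_AAB := by
  intro K ℓ α κ hℓ hα hκ hHK x aY aV np S T haY hST hT
  have hVV : 0 < Pool.Agent.H55.CG.VV K ℓ := (hPCB K ℓ hℓ).1
  have hlk : ∀ d, 0 ≤ lk α κ d := fun d =>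
    mul_nonneg hκ (Real.rpow_nonneg (Nat.cast_nonneg _) _)
  have huu : ∀ j, 0 ≤ uu (kk K) j := fun j => uu_nonneg _ (kk_nonneg K) j
  have hst : ∀ a b, 0 ≤ st K ℓ x a b := by
    intro a b
    unfold st Rr Ll
    refine mul_nonneg (mul_nonneg (div_nonneg ?_ hVV.le) (Real.exp_pos _).le)
      (div_nonneg ?_ hVV.le)
    · exact Finset.sum_nonneg fun y _ => Finset.sum_nonneg fun y' _ =>
        mul_nonneg (huu _) (Real.exp_pos _).le
    · exact Finset.sum_nonneg fun y _ => Finset.sum_nonneg fun y' _ =>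
        mul_nonneg (huu _) (Real.exp_pos _).le
  refine ⟨?_, ?_⟩
  · unfold AA
    exact Finset.sum_nonneg fun a _ => Finset.sum_nonneg fun b _ => mul_nonneg (hlk _) (hst a b)
  · set P := aY + aV with hP
    have hSP : (S + 1) * P ≤ T * P := Nat.mul_le_mul_right P hST
    have hTP : (T + 1) * P ≤ np * P := Nat.mul_le_mul_right P hT
    have h1 : AA K ℓ α κ aY aV S T x ≤
        PX K ℓ x (S * P + aY) ((S + 1) * P) (T * P + aY) ((T + 1) * P) := by
      unfold AA PX
      refine Finset.sum_le_sum fun a ha => Finset.sum_le_sum fun b hb => ?_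
      rw [Finset.mem_Ico, ← hP] at ha hb
      exact hSTB K ℓ α κ hℓ hα hκ hHK x a b (by omega)
    refine h1.trans ?_
    unfold WB
    have hT1 : T * P ≤ (T + 1) * P := Nat.mul_le_mul_right P (Nat.le_succ T)
    exact ((hPXS K ℓ hℓ _ _ _ _).1 x).2.2.1 0 (np * P) 0 (np * P) (Nat.zero_le _)
      (hSP.trans (hT1.trans hTP)) (Nat.zero_le _) hTP

end Pool.Agent.H53.CEL
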