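import Pool.Agent.H98.CE.Targets

/-! OMN: monotonicity. -/

set_option autoImplicit false

open MeasureTheory ProbabilityTheory Filter Topology
open Pool.Agent.H95 Pool.Agent.H95.Cop
open Pool.Agent.H98.CE

namespace Pool.Agent.H53.CEL

theorem pf_OMN : T_OMN := by
  intro K ν ℓ α β n J J' t t' C C' E E' h hJ ht hC hE
  obtain ⟨w, lab, h⟩ := h
  have hn : (0 : ℝ) ≤ n := Nat.cast_nonneg n
  exact ⟨w, lab, ⟨h.mw, h.ml, h.dw, h.dl, h.nonneg, h.le, h.zero, h.low,
    fun x => (h.labJ x).trans hJ, h.i1, h.i2,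
    fun j hj => (mul_le_mul_of_nonneg_left (ht j hj) hn).trans (h.dens j hj),
    h.u1.trans (mul_le_mul_of_nonneg_left hC hn), h.u2.trans hE⟩⟩

end Pool.Agent.H53.CEL
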